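import Pool.Agent.MWT.Stmts

/-!
# CVR (MP_23468a_al, squad MWT)
-/

set_option autoImplicit false

namespace Pool.Agent.MWT.H61

open Pool.Agent.Helper14_MV Pool.Agent.Helper2_MV Pool.Agent.MVD

theorem nl_app (u v : List ℕ) : nl (u ++ v) = nl u + nl v := by
  unfold nl
  rw [List.filter_append, List.length_append]

theorem nl_con {c : ℕ} (h : c % 3 ≠ 1) (v : List ℕ) : nl (c :: v) = nl v := by
  unfold nl
  rw [List.filter_cons_of_neg (by rw [decide_eq_true_eq]; exact h)]

theorem nl_zero {v : List ℕ} (h : nl v = 0) {z : ℕ} (hz : z ∈ v) : z % 3 ≠ 1 := by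
  intro h1
  unfold nl at h
  rw [List.length_eq_zero_iff, List.filter_eq_nil_iff] at h
  exact h z hz (decide_eq_true h1)

theorem mem_B0 {R : List ℕ} {B : ℕ → List ℕ} {t : List ℕ} {a : ℕ} (h : 0 ∈ R) (ha : a ∈ B 0) :
    a ∈ Bw R B ++ t := by
  apply List.mem_append_left
  unfold Bw
  rw [List.mem_flatMap]
  exact ⟨0, h, List.mem_append_left _ ha⟩

theorem len_le {N : ℕ} (p q : ℕ → Prop) [DecidablePred p] [DecidablePred q]
    (h : ∀ b < N, p b → q b) : ((List.range N).filter (fun b => decide (p b))).length ≤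
      ((List.range N).filter (fun b => decide (q b))).length := by
  have h1 : ((List.range N).filter (fun b => decide (p b))).Sublist
      ((List.range N).filter (fun b => decide (q b))) := by
    have h2 : (List.range N).filter (fun b => decide (p b)) =
        ((List.range N).filter (fun b => decide (q b))).filter (fun b => decide (p b)) := by
      rw [List.filter_filter]
      apply List.filter_congr
      intro b hb
      have h3 := h b (List.mem_range.1 hb)
      by_cases hp : p b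
      · rw [decide_eq_true hp, decide_eq_true (h3 hp)]; rfl
      · rw [decide_eq_false hp]; rfl
    rw [h2]
    exact List.filter_sublist
  exact h1.length_le

/-- a factor of the main block -/
theorem fac {m : ℕ} {R : List ℕ} {E : ℕ → Prop} {B : ℕ → List ℕ} {t : List ℕ}
    (hT : Tg m R E B t) {p w q : List ℕ} (hB : B 0 = p ++ (w ++ q)) :
    (∀ a ∈ w, a % 3 = 1 → ∃ b < 7 * m, a = 3 * b + 1) ∧
      (∀ b < 7 * m, w.count (3 * b + 1) ≤ 1) ∧
      (∀ b < 7 * m, 3 * b + 1 ∈ w → 3 * b + 1 ∉ p ∧ 3 * b + 1 ∉ q) := by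
  have h1 : ∀ b < 7 * m, p.count (3 * b + 1) + (w.count (3 * b + 1) + q.count (3 * b + 1)) = 1 := by
    intro b hb
    have h2 := hT.li b hb 0 hT.z
    rw [if_pos (Or.inl rfl), hB, List.count_append, List.count_append] at h2
    exact h2
  refine ⟨fun a ha h2 => hT.cn a (mem_B0 hT.z (by rw [hB]; simp [ha])) h2, fun b hb => ?_,
    fun b hb h2 => ?_⟩
  · have := h1 b hb
    omega
  · have h3 := h1 b hb
    have h4 : 0 < w.count (3 * b + 1) := List.count_pos_iff.2 h2
    exact ⟨List.count_eq_zero.1 (by omega), List.count_eq_zero.1 (by omega)⟩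

theorem cvr (hC : CvcStmt) (_hD : CvdStmt) (hT : CtbStmt) (hN : NlcStmt) (hF : NlfStmt) :
    CvrStmt := by
  intro m R E B t φ α L1 X1 X2 Y1 Y2 ω h e f g hm tg cv hEf hfe hg hfg
  obtain ⟨ξ1, ξ2, hφ, z1, z2, hB, -, -, -, hone, hall, hown⟩ :=
    hC m R E B t φ α L1 (X1 ++ g :: X2) (Y1 ++ g :: Y2) ω h e tg cv
  have he0 := tg.th e cv.ee
  have hf0 := tg.th f hEf
  obtain ⟨T1, T2, T3⟩ := hT m e f he0 hf0
  have hng : nl (φ g) = 0 := cv.c0 g (by simp) hg
  obtain ⟨ζ1, ζ2, hζ⟩ := List.append_of_mem hfg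
  have e1 : e % 3 ≠ 1 := by omega
  have f1 : f % 3 ≠ 1 := by omega
  have n1 : nl ζ1 = 0 := by rw [hζ, nl_app, nl_con f1] at hng; omega
  have n2 : nl ζ2 = 0 := by rw [hζ, nl_app, nl_con f1] at hng; omega
  have hX : (X1 ++ g :: X2).flatMap φ = X1.flatMap φ ++ (φ g ++ X2.flatMap φ) := by
    rw [List.flatMap_append, List.flatMap_cons]
  have hY : (Y1 ++ g :: Y2).flatMap φ = Y1.flatMap φ ++ (φ g ++ Y2.flatMap φ) := by
    rw [List.flatMap_append, List.flatMap_cons]
  have hB2 : B 0 = (α ++ (L1.flatMap φ ++ (ξ1 ++ e :: (ξ2 ++ (X1.flatMap φ ++ ζ1))))) ++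
      f :: ((ζ2 ++ (X2.flatMap φ ++ (ξ1 ++ e :: (ξ2 ++ (Y1.flatMap φ ++ ζ1))))) ++
      f :: (ζ2 ++ (Y2.flatMap φ ++ ω))) := by
    rw [hB, hX, hY, hζ]
    simp only [List.append_assoc, List.cons_append]
  have how := tg.ow f hEf _ _ _ hB2
  have g1 : g % 3 ≠ 1 := by omega
  -- the numbers of light letters
  have a1 := hF φ X1 (fun s hs => cv.c2 s (by simp [hs])) (fun s hs => cv.c0 s (by simp [hs]))
    (fun s hs h3 => (cv.c1 s (by simp [hs]) h3).1)
  have a2 := hF φ X2 (fun s hs => cv.c2 s (by simp [hs])) (fun s hs => cv.c0 s (by simp [hs]))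
    (fun s hs h3 => (cv.c1 s (by simp [hs]) h3).1)
  have a3 := hF φ Y1 (fun s hs => cv.c2 s (by simp [hs])) (fun s hs => cv.c0 s (by simp [hs]))
    (fun s hs h3 => (cv.c1 s (by simp [hs]) h3).1)
  have a4 := cv.nx
  rw [nl_app, nl_con g1] at a4
  rw [hX, nl_app, nl_app, hng] at hall
  constructor
  · -- first part
    have hB3 : B 0 = (α ++ (L1.flatMap φ ++ (ξ1 ++ e :: (ξ2 ++ (X1.flatMap φ ++ φ g))))) ++
        (X2.flatMap φ ++ (ξ1 ++ e :: (ξ2 ++ ((Y1 ++ g :: Y2).flatMap φ ++ ω)))) := by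
      rw [hB, hX]
      simp only [List.append_assoc, List.cons_append]
    obtain ⟨c1, c2, -⟩ := fac tg hB3
    have h5 := hN m (X2.flatMap φ) c1 c2
    have h6 := len_le (N := 7 * m) (fun b => own e (b % 7) ∧ own f (b % 7))
      (fun b => 3 * b + 1 ∈ X2.flatMap φ) (by
        rintro b hb ⟨k1, k2⟩
        have k3 := (hown b hb).2 k1
        have k4 := how b hb k2
        rw [hX, List.mem_append, List.mem_append] at k3
        rcases k3 with k3 | k3 | k3
        · exfalso
          have k5 : B 0 = (α ++ (L1.flatMap φ ++ (ξ1 ++ e :: ξ2))) ++ (X1.flatMap φ ++ (ζ1 ++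
              f :: ((ζ2 ++ (X2.flatMap φ ++ (ξ1 ++ e :: (ξ2 ++ (Y1.flatMap φ ++ ζ1))))) ++
              f :: (ζ2 ++ (Y2.flatMap φ ++ ω))))) := by
            rw [hB2]
            simp only [List.append_assoc, List.cons_append]
          refine ((fac tg k5).2.2 b hb k3).2 ?_
          exact List.mem_append_right _ (List.mem_cons_of_mem _ (List.mem_append_left _ k4))
        · exact absurd (by omega) (nl_zero hng k3)
        · exact k3)
    rw [← h5, T2] at h6
    omega
  · have hB3 : B 0 = (α ++ (L1.flatMap φ ++ (ξ1 ++ e :: (ξ2 ++ ((X1 ++ g :: X2).flatMap φ ++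
        (ξ1 ++ e :: ξ2)))))) ++ (Y1.flatMap φ ++ (φ g ++ (Y2.flatMap φ ++ ω))) := by
      rw [hB, hY]
      simp only [List.append_assoc, List.cons_append]
    obtain ⟨c1, c2, -⟩ := fac tg hB3
    have h5 := hN m (Y1.flatMap φ) c1 c2
    have h6 := len_le (N := 7 * m) (fun b => own f (b % 7) ∧ ¬ own e (b % 7))
      (fun b => 3 * b + 1 ∈ Y1.flatMap φ) (by
        rintro b hb ⟨k1, k2⟩
        have k3 : 3 * b + 1 ∉ X2.flatMap φ := fun k4 =>
          k2 ((hown b hb).1 (by rw [hX]; simp [k4]))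
        have k4 := how b hb k1
        simp only [List.mem_append, List.mem_cons] at k4
        rcases k4 with k4 | k4 | k4 | k4 | k4 | k4 | k4
        · exact absurd (by omega) (nl_zero n2 k4)
        · exact absurd k4 k3
        · exact absurd (by omega) (nl_zero z1 k4)
        · exact absurd (by omega) (show ¬ (3 * b + 1) % 3 = 1 from k4 ▸ e1)
        · exact absurd (by omega) (nl_zero z2 k4)
        · exact k4
        · exact absurd (by omega) (nl_zero n1 k4))
    rw [← h5, T3] at h6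
    omega

end Pool.Agent.MWT.H61
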