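import Pool.Agent.MWT.Defs
import Pool.Agent.Helper61_MWD.Disp

/-!
# The world of squad MWT (MP_23468a_al)
-/

set_option autoImplicit false

namespace Pool.Agent.Helper61_MWT

open Pool.Agent.Helper14_MV Pool.Agent.Helper2_MV Pool.Agent.Helper61_MWD
  Pool.Agent.Helper96_MWV

/-- `a` for `x`, `u`, `v` for the two separating letters -/
def sb (a : ℕ) (u v : List ℕ) : ℕ → List ℕ := fun c => if c = 0 then [a] else if c = 2 then u else v

theorem sb_P (a : ℕ) (u v : List ℕ) (k : ℕ) :
    (List.replicate k 0).flatMap (sb a u v) = P k a := by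
  induction k with
  | zero => rfl
  | succ k ih => rw [List.replicate_succ, List.flatMap_cons, ih]; rfl

theorem l_w {n : ℕ} {β : FIC} (h : MWZ.L n (RR β)) (a : ℕ) (u v : List ℕ) :
    RR β (P 1 a ++ (u ++ (P 1 a ++ (v ++ P 1 a))))
      (P (n + 1) a ++ (u ++ (P (n + 1) a ++ (v ++ P (n + 1) a)))) := by
  have h1 := RR.sub (sb a u v) h
  have e1 : ([0, 2, 0, 3, 0] : List ℕ).flatMap (sb a u v) =
      P 1 a ++ (u ++ (P 1 a ++ (v ++ P 1 a))) := by
    change [a] ++ (u ++ ([a] ++ (v ++ ([a] ++ [])))) = _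
    rfl
  have e2 : (MWZ.X (n + 1) ++ 2 :: (MWZ.X (n + 1) ++ 3 :: MWZ.X (n + 1))).flatMap (sb a u v) =
      P (n + 1) a ++ (u ++ (P (n + 1) a ++ (v ++ P (n + 1) a))) := by
    rw [List.flatMap_append, List.flatMap_cons, List.flatMap_append, List.flatMap_cons]
    have e3 : (MWZ.X (n + 1)).flatMap (sb a u v) = P (n + 1) a := sb_P a u v (n + 1)
    rw [e3]
    rfl
  rw [e1, e2] at h1
  exact h1

section

variable {n : ℕ} {β : FIC} (hn : 1 ≤ n) (ap : RR β [0, 0] (List.replicate (n + 2) 0))
  (h : MWZ.L n (RR β)) (a : ℕ) (u v : List ℕ)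

include hn ap h

theorem la : RR β (P (n + 1) a ++ (u ++ (P 1 a ++ (v ++ P 1 a))))
    (P 1 a ++ (u ++ (P 1 a ++ (v ++ P 1 a)))) := by
  have h1 := l_w h a (P n a ++ u) v
  have h2 : RR β (P (n + 1) a ++ (P n a ++ (u ++ (P (n + 1) a ++ (v ++ P (n + 1) a)))))
      (P (n + 1) a ++ (u ++ (P (n + 1) a ++ (v ++ P (n + 1) a)))) := by
    rw [mg]
    exact RR.symm (pc ap [] _ a (n + 1) (n + 1 + n) (by omega) ⟨1, by omega⟩)
  simp only [List.append_assoc] at h1
  rw [mg, Nat.add_comm 1 n] at h1
  exact tr h1 (tr h2 (RR.symm (l_w h a u v)))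

theorem lb : RR β (P 1 a ++ (u ++ (P (n + 1) a ++ (v ++ P 1 a))))
    (P 1 a ++ (u ++ (P 1 a ++ (v ++ P 1 a)))) := by
  have h1 := l_w h a u (P n a ++ v)
  have h2 : RR β (P (n + 1) a ++ (u ++ (P (n + 1) a ++ (P n a ++ (v ++ P (n + 1) a)))))
      (P (n + 1) a ++ (u ++ (P (n + 1) a ++ (v ++ P (n + 1) a)))) := by
    rw [mg]
    have h3 := RR.symm (pc ap (P (n + 1) a ++ u) (v ++ P (n + 1) a) a (n + 1) (n + 1 + n)
      (by omega) ⟨1, by omega⟩)
    simp only [List.append_assoc] at h3
    exact h3
  simp only [List.append_assoc] at h1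
  rw [mg, Nat.add_comm 1 n] at h1
  exact tr h1 (tr h2 (RR.symm (l_w h a u v)))

theorem lc : RR β (P 1 a ++ (u ++ (P 1 a ++ (v ++ P (n + 1) a))))
    (P 1 a ++ (u ++ (P 1 a ++ (v ++ P 1 a)))) := by
  have h1 := l_w h a u (v ++ P n a)
  have h2 : RR β (P (n + 1) a ++ (u ++ (P (n + 1) a ++ (v ++ (P n a ++ P (n + 1) a)))))
      (P (n + 1) a ++ (u ++ (P (n + 1) a ++ (v ++ P (n + 1) a)))) := by
    rw [← List.replicate_add]
    have h3 := RR.symm (pc ap (P (n + 1) a ++ (u ++ (P (n + 1) a ++ v))) [] a (n + 1)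
      (n + (n + 1)) (by omega) ⟨1, by omega⟩)
    simp only [List.append_assoc, List.append_nil] at h3
    exact h3
  simp only [List.append_assoc] at h1
  rw [← List.replicate_add] at h1
  exact tr h1 (tr h2 (RR.symm (l_w h a u v)))

/-- one occurrence of a letter which occurs at least three times -/
theorem lone (p q : List ℕ) (hc : 2 ≤ p.count a + q.count a) :
    RR β (p ++ (P 1 a ++ q)) (p ++ (P (n + 1) a ++ q)) := by
  by_cases hq : 2 ≤ q.count a
  · obtain ⟨q1, q2, rfl⟩ := List.append_of_mem (List.count_pos_iff.1 (by omega : 0 < q.count a))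
    by_cases h1 : a ∈ q2
    · obtain ⟨q3, q4, rfl⟩ := List.append_of_mem h1
      have h2 := cx p q4 (la hn ap h a q1 q3)
      simp only [List.append_assoc] at h2
      exact RR.symm h2
    · have h2 : a ∈ q1 := by
        rw [← List.count_pos_iff]
        rw [List.count_append, List.count_cons_self, List.count_eq_zero_of_not_mem h1] at hq
        omega
      obtain ⟨q3, q4, rfl⟩ := List.append_of_mem h2
      have h3 := cx p q2 (la hn ap h a q3 q4)
      simp only [List.append_assoc, List.cons_append] at h3 ⊢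
      exact RR.symm h3
  · by_cases hp : 2 ≤ p.count a
    · obtain ⟨q1, q2, rfl⟩ := List.append_of_mem (List.count_pos_iff.1 (by omega : 0 < p.count a))
      by_cases h1 : a ∈ q2
      · obtain ⟨q3, q4, rfl⟩ := List.append_of_mem h1
        have h2 := cx q1 q (lc hn ap h a q3 q4)
        simp only [List.append_assoc, List.cons_append] at h2 ⊢
        exact RR.symm h2
      · have h2 : a ∈ q1 := by
          rw [← List.count_pos_iff]
          rw [List.count_append, List.count_cons_self, List.count_eq_zero_of_not_mem h1] at hp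
          omega
        obtain ⟨q3, q4, rfl⟩ := List.append_of_mem h2
        have h3 := cx q3 q (lc hn ap h a q4 q2)
        simp only [List.append_assoc, List.cons_append] at h3 ⊢
        exact RR.symm h3
    · obtain ⟨p1, p2, rfl⟩ := List.append_of_mem (List.count_pos_iff.1 (by omega : 0 < p.count a))
      obtain ⟨q1, q2, rfl⟩ := List.append_of_mem (List.count_pos_iff.1 (by omega : 0 < q.count a))
      have h3 := cx p1 q2 (lb hn ap h a p2 q1)
      simp only [List.append_assoc, List.cons_append] at h3 ⊢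
      exact RR.symm h3

theorem hv_pre (w : List ℕ) : ∀ p : List ℕ, 3 ≤ p.count a + w.count a →
    RR β (p ++ w) (p ++ hv n a w) := by
  induction w with
  | nil => intro p _; exact RR.refl _
  | cons b w ih =>
    intro p hc
    by_cases hb : b = a
    · subst hb
      have e : hv n b (b :: w) = P (n + 1) b ++ hv n b w := by
        change (if b = b then P (n + 1) b else [b]) ++ hv n b w = _
        rw [if_pos rfl]
      rw [List.count_cons_self] at hc
      have h1 : RR β (p ++ (P 1 b ++ w)) (p ++ (P (n + 1) b ++ w)) := lone hn ap h b p w (by omega)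
      have h2 := ih (p ++ P (n + 1) b) (by
        rw [List.count_append, List.count_replicate_self]; omega)
      rw [e]
      simp only [List.append_assoc] at h2
      exact tr h1 h2
    · have e : hv n a (b :: w) = [b] ++ hv n a w := by
        change (if b = a then P (n + 1) a else [b]) ++ hv n a w = _
        rw [if_neg hb]
      have h2 := ih (p ++ [b]) (by
        rw [List.count_append]
        rw [List.count_cons_of_ne hb] at hc
        omega)
      rw [e]
      simp only [List.append_assoc] at h2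
      exact h2

theorem hv_of (w : List ℕ) (hc : 3 ≤ w.count a) : RR β w (hv n a w) :=
  hv_pre hn ap h a w [] (by rw [List.count_nil]; omega)

end

/-- **The world.** -/
theorem wo_of {n : ℕ} {β : FIC} (hw : LRW n β) (hb : MWNP.HBP n β) (h0 : MWZ.R0 (RR β))
    (hl : MWZ.L n (RR β)) : MWT.Wo n β where
  hn := hw.pos
  ap := hw.per
  i3 := hw.iso
  md := hw.md
  hv := fun w a hc => hv_of hw.pos hw.per hl a w hc
  cm := cm_of hb h0
  sr := sr_of hb
  sl := sl_of hb

end Pool.Agent.Helper61_MWT
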